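import Mathlib

set_option autoImplicit false

namespace Pool.Agent.Results.MP_ab03e0_co.OrderSeventeen

/-- `op` is a quasigroup operation on `S`: for all `a, b` each of the equations `a x = b` and
`x a = b` has exactly one solution. -/
def IsQuasigroup {S : Type} (op : S → S → S) : Prop :=
  (∀ a b, ∃! x, op a x = b) ∧ (∀ a b, ∃! x, op x a = b)

/-- The quadratic residue pattern modulo `17`. -/
def res : Fin 17 → Bool :=
  ![true, true, true, false, true, false, false, false, true,
    true, false, false, false, true, false, true, true]

/-- The operation `x * y = x + c (y - x)` modulo `17`, where `c = 7` if `y - x` is a square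
modulo `17` and `c = 11` otherwise. -/
def op (x y : Fin 17) : Fin 17 :=
  if res (y - x) then x + 7 * (y - x) else x + 11 * (y - x)

/-- There is a quasigroup of order `17` satisfying `(xy)y = x(xy)` for all `x, y`. -/
theorem result : ∃ op : Fin 17 → Fin 17 → Fin 17,
    IsQuasigroup op ∧ ∀ x y : Fin 17, op (op x y) y = op x (op x y) := by
  refine ⟨op, ⟨?_, ?_⟩, ?_⟩
  · have hinj : ∀ a : Fin 17, Function.Injective (op a) := by
      unfold Function.Injective
      decide +kernel
    intro a b
    have hb := (Finite.injective_iff_bijective.mp (hinj a))
    exact hb.existsUnique b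
  · have hinj : ∀ a : Fin 17, Function.Injective (fun x => op x a) := by
      unfold Function.Injective
      decide +kernel
    intro a b
    have hb := (Finite.injective_iff_bijective.mp (hinj a))
    exact hb.existsUnique b
  · decide +kernel

end Pool.Agent.Results.MP_ab03e0_co.OrderSeventeen
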